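import Pool.Agent.GTD.FIN4

set_option autoImplicit false

namespace Pool.Agent.Results.MP_6a6203_al.MetabelianDetermines

open Pool.Agent.GTD

/-- An element `(1,f)` of the profinite Grothendieck–Teichmüller group acts trivially on the maximal
metabelian quotient of the free profinite group of rank two if and only if `f(u,v) = 1` for all
`u, v ∈ GL₂(O)` over all finite commutative rings `O`. -/
theorem result :
    ∀ Φ : Pair, Φ ∈ GT → Φ.lam = 1 →
      (TrivMetab Φ ↔
        ∀ (O : Type) [CommRing O] [Finite O] (u v : GL (Fin 2) O), E Φ.f u v = 1) :=
  all_B2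

end Pool.Agent.Results.MP_6a6203_al.MetabelianDetermines
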