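import Pool.Agent.GTD.FIN4

set_option autoImplicit false

namespace Pool.Agent.Results.MP_6a6203_al.RigidPairs

open Pool.Agent.GTD

/-- Let `Φ = (1,f)` be an element of the profinite Grothendieck–Teichmüller group and `c = (-1,1)`.
There is an element `s` of the closed subgroup generated by the commutators of elements of `GT` such
that on all rigid pairs `(u,v)` of finite groups with an endomorphism which inverts `u`, `v` and the
elements commuting with `u`, among them the linearly rigid pairs over finite fields with `u`
nonderogatory and the hypergeometric pairs, the commutator `[Φ,c]` acts as `Φ²`, and `s` acts as `Φ`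
if for some odd `N` the `N`-th powers of the elements commuting with `u` commute with `v`, or if
`(u,v)` is of odd type, or if an odd power of `Φ` acts trivially. -/
theorem result :
    ∀ Φ : Pair, Φ ∈ GT → Φ.lam = 1 →
      ∃ U c s : Pairˣ, (U : Pair) = Φ ∧ (c : Pair) ∈ GT ∧ (c : Pair).lam = -1 ∧
        (c : Pair).f = 1 ∧ (s : Pair).lam = 1 ∧ InGT' (s : Pair) ∧
        (∀ (H : Type) [Group H] [Finite H] (u v : H), InvPair u v →
          RigidExactAt U (U * c * U⁻¹ * c⁻¹) s u v) ∧
        (∀ (K : Type) [Field K] [Finite K] (n : ℕ) (u v : GL (Fin n) K),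
          (RigidPair u v ∧ Nonderog u.1) ∨
            ((v.1 - 1).rank = 1 ∧ IsCoprime u.1.charpoly (u.1 * v.1).charpoly) →
          RigidExactAt U (U * c * U⁻¹ * c⁻¹) s u v) :=
  all_rigid

end Pool.Agent.Results.MP_6a6203_al.RigidPairs
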