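import Pool.Agent.GTD.FIN4

set_option autoImplicit false

namespace Pool.Agent.Results.MP_6a6203_al.TwoDimensionalExact

open Pool.Agent.GTD

/-- Let `Φ = (1,f)` be an element of the profinite Grothendieck–Teichmüller group and `c = (-1,1)`.
There is an element `s` of the closed subgroup generated by the commutators of elements of `GT` such
that for all pairs `(u,v)` in a central extension of a subgroup of `GL₂(O)` (`O` any finite
commutative ring), all pairs in `GL_n(O)` with `v` or `u v` a scalar times a reflection and all pairs
in finite center-by-metabelian groups the commutator `[Φ,c]` acts on the homomorphism `x ↦ u`,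
`y ↦ v` from the free profinite group as `Φ²`, and `s` acts on it as `Φ` if `(u,v)` is of odd type:
one of `u`, `v`, `u v` lies, up to a factor commuting with `u` and `v`, in a nilpotent group of odd
order normalized by `u` and `v` (for instance `u` and `v` generate a nilpotent group of odd order);
or more generally if an odd power of `Φ` acts on it trivially. -/
theorem result :
    ∀ Φ : Pair, Φ ∈ GT → Φ.lam = 1 →
      ∃ U c s : Pairˣ, (U : Pair) = Φ ∧ (c : Pair) ∈ GT ∧ (c : Pair).lam = -1 ∧
        (c : Pair).f = 1 ∧ (s : Pair).lam = 1 ∧ InGT' (s : Pair) ∧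
        (∀ (O : Type) [CommRing O] [Finite O] (H : Type) [Group H] [Finite H]
          (ρ : H →* GL (Fin 2) O), ρ.ker ≤ Subgroup.center H → ∀ u v : H,
          ExactAt U (U * c * U⁻¹ * c⁻¹) s u v) ∧
        (∀ (O : Type) [CommRing O] [Finite O] (n : ℕ) (u v : GL (Fin n) O),
          ScalRefl v.1 ∨ ScalRefl (u.1 * v.1) →
          ExactAt U (U * c * U⁻¹ * c⁻¹) s u v) ∧
        (∀ (H : Type) [Group H] [Finite H], derivedSeries H 2 ≤ Subgroup.center H → ∀ u v : H,
          ExactAt U (U * c * U⁻¹ * c⁻¹) s u v) :=
  all_exact

end Pool.Agent.Results.MP_6a6203_al.TwoDimensionalExact
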